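import Pool.Agent.helper17.MLG.Spec

/-! MP_84f457_gt, project mlg, row CVI: the integral of a convolution. -/

set_option autoImplicit false
set_option linter.unusedSectionVars false

namespace Pool.Agent.MLG

open MeasureTheory Set Filter Topology Module
open scoped ENNReal ContDiff

theorem CVI (hMES : MES_stmt) : CVI_stmt := by
  intro V _ _ _ _ _ _ hV m u hm hu
  have := top hV
  obtain ⟨hH, -, -⟩ := hMES V hV
  have := hH
  have hmint : Integrable m (vol V) := hm.smooth.continuous.integrable_of_hasCompactSupport hm.supp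
  have h1 : ∀ x, ENNReal.ofReal (cv m u x) =
      ∫⁻ g, ENNReal.ofReal (m g) * ENNReal.ofReal (u (g⁻¹ * x)) ∂(vol V) := by
    intro x
    unfold cv
    have hmeas : Measurable (fun g => u (g⁻¹ * x)) := hu.meas.comp (measurable_inv.mul_const x)
    have hi : Integrable (fun g => m g * u (g⁻¹ * x)) (vol V) :=
      hmint.mul_bdd (c := 1) hmeas.aestronglyMeasurable (ae_of_all _ fun g => by
        rw [Real.norm_eq_abs, abs_of_nonneg (hu.nonneg _)]
        exact hu.le_one _)
    rw [ofReal_integral_eq_lintegral_ofReal hi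
      (ae_of_all _ fun g => mul_nonneg (hm.nonneg g) (hu.nonneg _))]
    exact lintegral_congr fun g => ENNReal.ofReal_mul (hm.nonneg g)
  simp only [h1]
  have hmm : Measurable (fun g => ENNReal.ofReal (m g)) := hm.smooth.continuous.measurable.ennreal_ofReal
  rw [lintegral_lintegral_swap]
  · have h2 : ∀ g, ∫⁻ x, ENNReal.ofReal (m g) * ENNReal.ofReal (u (g⁻¹ * x)) ∂(vol V) =
        ENNReal.ofReal (m g) * ∫⁻ x, ENNReal.ofReal (u x) ∂(vol V) := by
      intro g
      rw [lintegral_const_mul, lintegral_mul_left_eq_self (fun x => ENNReal.ofReal (u x)) g⁻¹]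
      exact (hu.meas.comp (measurable_const_mul g⁻¹)).ennreal_ofReal
    simp only [h2]
    rw [lintegral_mul_const _ hmm, ← ofReal_integral_eq_lintegral_ofReal hmint (ae_of_all _ hm.nonneg),
      hm.int, ENNReal.ofReal_one, one_mul]
  · apply Measurable.aemeasurable
    exact (hmm.comp measurable_snd).mul
      (hu.meas.comp ((measurable_snd.inv).mul measurable_fst)).ennreal_ofReal

end Pool.Agent.MLG
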