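import Pool.Agent.helper17.MLG.Spec

/-! MP_84f457_gt, project mlg, row DLI: the divergence is left-invariant. -/

set_option autoImplicit false
set_option linter.unusedSectionVars false

namespace Pool.Agent.MLG

open MeasureTheory Set Filter Topology Module
open scoped ENNReal ContDiff

theorem DLI (hMES : MES_stmt) (hIBP : IBP_stmt) (hGRR : GRR_stmt) : DLI_stmt := by
  intro V _ _ _ _ _ _ hV a ha hc g x
  have := top hV
  obtain ⟨hH, -, -⟩ := hMES V hV
  have := hH
  have h1i : (1 : ℕ∞ω) ≤ (∞ : ℕ∞ω) := by simp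
  have hsm : ContDiff ℝ ∞ (fun y : V => g * y) := smooth_left hV g
  have ha' : ContDiff ℝ 1 (fun y => a (g * y)) := ha.comp (hsm.of_le h1i)
  have hc' : HasCompactSupport (fun y => a (g * y)) := hc.comp_homeomorph (Homeomorph.mulLeft g)
  obtain ⟨hcont, -, hint⟩ := hIBP V hV a ha hc
  obtain ⟨hcont', -, hint'⟩ := hIBP V hV _ ha' hc'
  obtain ⟨-, -, -, -, -, -, -, hgr⟩ := hGRR V hV
  have key : ∀ f : V → ℝ, ContDiff ℝ ∞ f → HasCompactSupport f →
      ∫ x, f x • dvg (fun y => a (g * y)) x ∂(vol V) = ∫ x, f x • dvg a (g * x) ∂(vol V) := by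
    intro f hf _
    simp only [smul_eq_mul]
    have hfg : ContDiff ℝ ∞ (fun y => f (g⁻¹ * y)) := hf.comp (smooth_left hV g⁻¹)
    have h1 := hint (fun y => f (g⁻¹ * y)) (hfg.of_le h1i)
    have h2 : ∫ x, f x * dvg a (g * x) ∂(vol V) = ∫ x, f (g⁻¹ * x) * dvg a x ∂(vol V) := by
      rw [← integral_mul_left_eq_self (fun x => f (g⁻¹ * x) * dvg a x) g]
      simp only [inv_mul_cancel_left]
    rw [hint' f (hf.of_le h1i), h2, h1]
    congr 1
    rw [← integral_mul_left_eq_self (fun x => inner ℝ (gr f x) (a (g * x))) g⁻¹]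
    congr 1
    ext x
    rw [hgr f (hf.differentiable (by simp)) g⁻¹ x, mul_inv_cancel_left]
  have h := ae_eq_of_integral_contDiff_smul_eq (μ := vol V) hcont'.locallyIntegrable
    (hcont.comp hsm.continuous).locallyIntegrable key
  have h2 := (Continuous.ae_eq_iff_eq (vol V) hcont' (hcont.comp hsm.continuous)).1 h
  exact congrFun h2 x

end Pool.Agent.MLG
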