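import Pool.Agent.helper17.MLG.Spec

/-! MP_84f457_gt, project mlg, row OVL: the overlap with a translate. -/

set_option autoImplicit false
set_option linter.unusedSectionVars false

namespace Pool.Agent.MLG

open MeasureTheory Set Filter Topology Module
open scoped ENNReal ContDiff Pointwise

theorem OVL (hMES : MES_stmt) : OVL_stmt := by
  intro V _ _ _ _ _ _ hV hdim E hE hfin c hc hcE
  have := top hV
  obtain ⟨hH, -, -⟩ := hMES V hV
  have := hH
  have hnt : Nontrivial V := Module.nontrivial_of_finrank_pos (R := ℝ) (by omega)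
  -- translations as continuous maps
  let F : C(V, C(V, V)) := ContinuousMap.curry ⟨fun p : V × V => p.1⁻¹ * p.2,
    (continuous_fst.inv).mul continuous_snd⟩
  have hF : ∀ g x : V, F g x = g⁻¹ * x := fun g x => rfl
  have himg : ∀ g : V, (fun x => g * x) '' E = F g ⁻¹' E := by
    intro g
    rw [Set.image_mul_left]
    rfl
  have hmp : ∀ g : V, MeasurePreserving (F g) (vol V) (vol V) := fun g =>
    measurePreserving_mul_left (vol V) g⁻¹
  have hmeas : ∀ g : V, MeasurableSet (F g ⁻¹' E) := fun g => (F g).continuous.measurable hE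
  have hcont : Continuous (fun g : V => (vol V).real (E ∩ F g ⁻¹' E)) := by
    rw [continuous_iff_continuousAt]
    intro g0
    have h1 := tendsto_measure_symmDiff_preimage_nhds_zero (μ := vol V) (ν := vol V)
      (F.continuous.tendsto g0) (Eventually.of_forall hmp) (hmp g0) hE.nullMeasurableSet hfin
    have h2 := (ENNReal.tendsto_toReal ENNReal.zero_ne_top).comp h1
    rw [ENNReal.toReal_zero] at h2
    refine tendsto_iff_dist_tendsto_zero.2 (squeeze_zero (fun _ => dist_nonneg) (fun g => ?_) h2)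
    rw [Real.dist_eq]
    have hne : ∀ g : V, vol V (E ∩ F g ⁻¹' E) ≠ ⊤ := fun g =>
      (measure_lt_top_of_subset Set.inter_subset_left hfin).ne
    refine (abs_measureReal_sub_le_measureReal_symmDiff' (hE.inter (hmeas g)).nullMeasurableSet
      (hE.inter (hmeas g0)).nullMeasurableSet (hne g) (hne g0)).trans ?_
    have hpf : ∀ g : V, vol V (F g ⁻¹' E) ≠ ⊤ := fun g => by
      rw [(hmp g).measure_preimage hE.nullMeasurableSet]
      exact hfin
    refine ENNReal.toReal_mono ?_ (measure_mono ?_)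
    · refine ((measure_mono Set.symmDiff_subset_union).trans_lt ?_).ne
      exact (measure_union_le _ _).trans_lt (ENNReal.add_lt_top.2 ⟨(hpf g).lt_top, (hpf g0).lt_top⟩)
    · rintro x (⟨hx1, hx2⟩ | ⟨hx1, hx2⟩)
      · exact Or.inl ⟨hx1.2, fun h => hx2 ⟨hx1.1, h⟩⟩
      · exact Or.inr ⟨hx1.2, fun h => hx2 ⟨hx1.1, h⟩⟩
  -- small overlap
  have hcfin : c ≠ ⊤ := ne_top_of_le_ne_top hfin hcE
  have hc2 : c / 2 ≠ 0 := (ENNReal.half_pos hc.ne').ne'
  obtain ⟨K, hKE, hK, hKs⟩ := hE.exists_isCompact_sdiff_lt hfin hc2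
  have hKK : IsCompact (K * K⁻¹) := hK.mul hK.inv
  obtain ⟨g, hg⟩ : ∃ g, g ∉ K * K⁻¹ := by
    by_contra h
    push Not at h
    exact noncompact_univ V (by rw [← Set.eq_univ_of_forall h]; exact hKK)
  have hsm : vol V (E ∩ F g ⁻¹' E) ≤ c := by
    have hsub : E ∩ F g ⁻¹' E ⊆ (E \ K) ∪ F g ⁻¹' (E \ K) := by
      rintro x ⟨hx1, hx2⟩
      by_cases hxK : x ∈ K
      · right
        refine ⟨hx2, fun h => hg ?_⟩
        rw [hF] at h
        refine Set.mem_mul.2 ⟨x, hxK, (g⁻¹ * x)⁻¹, Set.inv_mem_inv.2 h, ?_⟩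
        rw [mul_inv_rev, inv_inv, ← mul_assoc, mul_inv_cancel, one_mul]
      · exact Or.inl ⟨hx1, hxK⟩
    calc vol V (E ∩ F g ⁻¹' E) ≤ vol V ((E \ K) ∪ F g ⁻¹' (E \ K)) := measure_mono hsub
      _ ≤ vol V (E \ K) + vol V (F g ⁻¹' (E \ K)) := measure_union_le _ _
      _ = vol V (E \ K) + vol V (E \ K) := by
          rw [(hmp g).measure_preimage (hE.diff hK.measurableSet).nullMeasurableSet]
      _ ≤ c / 2 + c / 2 := add_le_add hKs.le hKs.le
      _ = c := ENNReal.add_halves c
  have hr := mem_range_of_exists_le_of_exists_ge (c := c.toReal) hcont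
    ⟨g, ENNReal.toReal_mono hcfin hsm⟩ ⟨1, by
      have h1 : F 1 ⁻¹' E = E := by
        ext x
        rw [Set.mem_preimage, hF, inv_one, one_mul]
      rw [h1, Set.inter_self]
      exact ENNReal.toReal_mono hfin hcE⟩
  obtain ⟨g', hg'⟩ := hr
  refine ⟨g', ?_⟩
  rw [himg]
  have hne : vol V (E ∩ F g' ⁻¹' E) ≠ ⊤ := (measure_lt_top_of_subset Set.inter_subset_left hfin).ne
  exact (ENNReal.toReal_eq_toReal_iff' hne hcfin).1 hg'

end Pool.Agent.MLG
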