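import Pool.Agent.helper17.MLG.Spec

/-! MP_84f457_gt, project mlg, row PER: elementary properties of the perimeter. -/

set_option autoImplicit false
set_option linter.unusedSectionVars false

namespace Pool.Agent.MLG

open MeasureTheory Set Filter Topology Module
open scoped ENNReal ContDiff

section

variable {V : Type} [NormedAddCommGroup V] [InnerProductSpace ℝ V] [FiniteDimensional ℝ V] [MeasurableSpace V]
  [BorelSpace V] [Group V]

theorem PER_ind (E : Set V) (hE : MeasurableSet E) : per E = tv (ind E) := by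
  unfold per tv
  refine iSup_congr fun a => iSup_congr fun _ => ?_
  congr 1
  rw [← integral_indicator hE]
  congr 1
  ext x
  show E.indicator (fun x => dvg a x) x = E.indicator (fun _ => (1 : ℝ)) x * dvg a x
  by_cases hx : x ∈ E
  · rw [Set.indicator_of_mem hx, Set.indicator_of_mem hx, one_mul]
  · rw [Set.indicator_of_notMem hx, Set.indicator_of_notMem hx, zero_mul]

theorem PER_neg (a : V → V) (x : V) : dvg (fun y => - a y) x = - dvg a x := by
  unfold dvg
  have h : (fun y => rho y • fr y (- a y)) = fun y => - (rho y • fr y (a y)) := by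
    ext y
    rw [map_neg, smul_neg]
  rw [h, fderiv_fun_neg]
  have h2 : (((-fderiv ℝ (fun y => rho y • fr y (a y)) x : V →L[ℝ] V)) : V →ₗ[ℝ] V) =
      -((fderiv ℝ (fun y => rho y • fr y (a y)) x : V →L[ℝ] V) : V →ₗ[ℝ] V) := rfl
  rw [h2, map_neg, mul_neg]

theorem PER_admneg {a : V → V} (h : Adm a) : Adm (fun x => - a x) where
  smooth := h.smooth.neg
  supp := h.supp.neg
  le_one := fun x => by rw [norm_neg]; exact h.le_one x

theorem PER_admtr (hV : IsLie V) {a : V → V} (h : Adm a) (g : V) : Adm (fun x => a (g * x)) := by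
  have := top hV
  exact
  { smooth := h.smooth.comp ((smooth_left hV g).of_le (by simp))
    supp := h.supp.comp_homeomorph (Homeomorph.mulLeft g)
    le_one := fun x => h.le_one _ }

theorem PER_total (hMES : MES_stmt) (hIBP : IBP_stmt) (hV : IsLie V) {a : V → V} (h : Adm a) :
    Integrable (dvg a) (vol V) ∧ ∫ x, dvg a x ∂(vol V) = 0 := by
  obtain ⟨hH, -, -⟩ := hMES V hV
  have := hH
  obtain ⟨h1, h2, h3⟩ := hIBP V hV a h.smooth h.supp
  refine ⟨h1.integrable_of_hasCompactSupport h2, ?_⟩
  have h4 := h3 (fun _ => 1) contDiff_const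
  simp only [one_mul] at h4
  rw [h4]
  have h5 : ∀ x : V, gr (fun _ : V => (1 : ℝ)) x = 0 := by
    intro x
    unfold gr
    rw [fderiv_fun_const]
    simp
  simp only [h5, inner_zero_left, integral_zero, neg_zero]

theorem PER_compl (hMES : MES_stmt) (hIBP : IBP_stmt) (hV : IsLie V) (E : Set V) (hE : MeasurableSet E) :
    per Eᶜ ≤ per E := by
  unfold per
  refine iSup₂_le fun a ha => ?_
  refine le_iSup₂_of_le (fun x => - a x) (PER_admneg ha) (le_of_eq ?_)
  congr 1
  obtain ⟨h1, h2⟩ := PER_total hMES hIBP hV ha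
  have h3 := integral_add_compl hE h1
  rw [h2] at h3
  have h4 : ∫ x in E, dvg (fun y => - a y) x ∂(vol V) = - ∫ x in E, dvg a x ∂(vol V) := by
    rw [← integral_neg]
    refine integral_congr_ae (ae_of_all _ fun x => PER_neg a x)
  rw [h4]
  linarith

theorem PER_tr (hMES : MES_stmt) (hDLI : DLI_stmt) (hV : IsLie V) (g : V) (E : Set V) (hE : MeasurableSet E) :
    per ((fun x => g * x) '' E) ≤ per E := by
  have := top hV
  obtain ⟨hH, -, -⟩ := hMES V hV
  have := hH
  unfold per
  refine iSup₂_le fun a ha => ?_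
  refine le_iSup₂_of_le (fun x => a (g * x)) (PER_admtr hV ha g) (le_of_eq ?_)
  congr 1
  have hm : MeasurableSet ((fun x => g * x) '' E) := by
    rw [Set.image_mul_left]
    exact (measurable_const_mul _) hE
  rw [← integral_indicator hE, ← integral_indicator hm,
    ← integral_mul_left_eq_self (((fun x => g * x) '' E).indicator (fun x => dvg a x)) g]
  congr 1
  ext x
  by_cases hx : x ∈ E
  · rw [Set.indicator_of_mem hx, Set.indicator_of_mem (Set.mem_image_of_mem _ hx),
      hDLI V hV a ha.smooth ha.supp]
  · rw [Set.indicator_of_notMem hx, Set.indicator_of_notMem]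
    rintro ⟨y, hy, hxy⟩
    exact hx (mul_left_cancel hxy ▸ hy)

theorem PER_isU (E : Set V) (hE : MeasurableSet E) : IsU (ind E) where
  meas := measurable_const.indicator hE
  nonneg := fun x => Set.indicator_nonneg (fun _ _ => zero_le_one) x
  le_one := fun x => Set.indicator_le_self' (fun _ _ => zero_le_one) x

end

theorem PER (hMES : MES_stmt) (hIBP : IBP_stmt) (hDLI : DLI_stmt) (hSUB : SUB_stmt) : PER_stmt := by
  intro V _ _ _ _ _ _ hV
  refine ⟨PER_ind, ?_, ?_, ?_, ?_⟩
  · intro E F hEF
    unfold per
    refine iSup_congr fun a => iSup_congr fun _ => ?_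
    rw [setIntegral_congr_set hEF]
  · intro E hE
    refine le_antisymm (PER_compl hMES hIBP hV E hE) ?_
    have := PER_compl hMES hIBP hV Eᶜ hE.compl
    rwa [compl_compl] at this
  · intro g E hE
    refine le_antisymm (PER_tr hMES hDLI hV g E hE) ?_
    have := top hV
    have hm : MeasurableSet ((fun x => g * x) '' E) := by
      rw [Set.image_mul_left]
      exact (measurable_const_mul _) hE
    have h1 := PER_tr hMES hDLI hV g⁻¹ _ hm
    have h2 : (fun x => g⁻¹ * x) '' ((fun x => g * x) '' E) = E := by
      rw [Set.image_image]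
      simp only [inv_mul_cancel_left, Set.image_id']
    rwa [h2] at h1
  · intro A B hA hB
    rw [PER_ind _ (hA.inter hB), PER_ind _ (hA.union hB), PER_ind A hA, PER_ind B hB]
    have h := hSUB V hV (ind A) (ind B) (PER_isU A hA) (PER_isU B hB)
    have e1 : (fun x => ind A x * ind B x) = ind (A ∩ B) := by
      ext x
      by_cases hx : x ∈ A <;> by_cases hy : x ∈ B <;> simp [ind, Set.indicator, hx, hy]
    have e2 : (fun x => ind A x + ind B x - ind A x * ind B x) = ind (A ∪ B) := by
      ext x
      by_cases hx : x ∈ A <;> by_cases hy : x ∈ B <;> simp [ind, Set.indicator, hx, hy]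
    rwa [e1, e2] at h

end Pool.Agent.MLG
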